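import Pool.Agent.BSL.All

/-!
# The mating map `F` does not extend continuously to the closure of `𝓑(zⁿ)`, `n ≥ 3`

`Moduli n` is the space of classes of degree `n` rational maps with two marked fixed points `p`
and `q` (normalised to `p = 0`, `q = ∞`), `PolyClass n` the classes of polynomials with `q = ∞`,
`Mates n A a B b q` says that `q` is the class of the mating of the marked Blaschke products
`(A, a)` and `(B, b)`, and `BSpace n A a` is the set `𝓑(A)` of all classes of matings of `(A, a)`.
-/

set_option autoImplicit false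

open Polynomial Metric Set Filter Topology

noncomputable section

namespace Pool.Agent.Results.MP_395436_an.NoExtension

open Pool.Agent.MAT

/-- The set `𝓑(A)` of the classes of the matings of `(A, a)` with the marked Blaschke products
`(B, b)` of degree `n`. -/
def BSpace (n : ℕ) (A : ℂ → ℂ) (a : ℂ) : Set (Moduli n) :=
  {q | ∃ (B : ℂ → ℂ) (b : ℂ), Marked n B b ∧ Mates n A a B b q}

/-- Let `n ≥ 3` and let `(A, a)` be a marked Blaschke product of degree `n` that is not
rotation-conjugate to `zⁿ`.  There is no map `Ψ`, continuous on the closure of `𝓑(zⁿ)` in the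
space of classes of polynomials, such that every class `q` in `𝓑(zⁿ)` is the class of the mating
of `zⁿ` and some `(B, b)` for which `Ψ q` is the class of the mating of `(A, a)` and `(B, b)`. -/
theorem result (n : ℕ) (A : ℂ → ℂ) (a : ℂ) (hn : 3 ≤ n) (hA : Marked n A a)
    (hrot : ¬ ∃ ω : ℂ, ‖ω‖ = 1 ∧ ∀ z ∈ ball (0 : ℂ) 1, A (ω * z) = ω * z ^ n) :
    ¬ ∃ Ψ : Moduli n → Moduli n,
      ContinuousOn Ψ (closure (BSpace n (fun z => z ^ n) 1) ∩ PolyClass n) ∧
      ∀ q ∈ BSpace n (fun z => z ^ n) 1, ∃ (B : ℂ → ℂ) (b : ℂ), Marked n B b ∧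
        Mates n (fun z => z ^ n) 1 B b q ∧ Mates n A a B b (Ψ q) := by
  rintro ⟨Ψ, hc, hm⟩
  have hsub : HypPoly n ⊆ BSpace n (fun z => z ^ n) 1 :=
    Pool.Agent.BSL.hypPoly_subset n (by omega)
  exact final n A a hn hA hrot ⟨Ψ,
    hc.mono (inter_subset_inter_left _ (closure_mono hsub)), fun q hq => hm q (hsub hq)⟩

end Pool.Agent.Results.MP_395436_an.NoExtension
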